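import Mathlib

set_option autoImplicit false

/-! # Finite families of points found monochromatic in every finite colouring -/

namespace Pool.Agent.N479.ER

open Finset

/-- squared Euclidean distance -/
def sq {ι : Type} [Fintype ι] (u v : ι → ℝ) : ℝ := ∑ x, (u x - v x) ^ 2

/-- `D` is the squared-distance matrix of a family of points which, for every finite palette `κ`, is
found monochromatic in every `κ`-colouring of some finite set of points. -/
def Good {B : Type} (D : B → B → ℝ) : Prop :=
  ∀ (κ : Type) [Finite κ], ∃ (ι : Type) (_ : Fintype ι) (W : Finset (ι → ℝ)),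
    ∀ c : (ι → ℝ) → κ, ∃ f : B → ι → ℝ, (∀ b, f b ∈ W) ∧
      (∀ b b', sq (f b) (f b') = D b b') ∧ ∀ b b', c (f b) = c (f b')

lemma sq_self {ι : Type} [Fintype ι] (u : ι → ℝ) : sq u u = 0 := by simp [sq]

lemma sq_comm {ι : Type} [Fintype ι] (u v : ι → ℝ) : sq u v = sq v u := by
  unfold sq
  exact Finset.sum_congr rfl fun x _ => by ring

lemma sq_sumElim {ι κ : Type} [Fintype ι] [Fintype κ] (u u' : ι → ℝ) (v v' : κ → ℝ) :
    sq (Sum.elim u v) (Sum.elim u' v') = sq u u' + sq v v' := by
  simp [sq, Fintype.sum_sum_type]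

lemma sq_smul {ι : Type} [Fintype ι] (t : ℝ) (u v : ι → ℝ) :
    sq (t • u) (t • v) = t ^ 2 * sq u v := by
  simp only [sq, Pi.smul_apply, smul_eq_mul, Finset.mul_sum]
  exact Finset.sum_congr rfl fun x _ => by ring

theorem Good.congr {B : Type} {D D' : B → B → ℝ} (h : Good D) (e : ∀ b b', D b b' = D' b b') :
    Good D' := by
  have : D = D' := by funext b b'; exact e b b'
  exact this ▸ h

theorem Good.symm {B : Type} {D : B → B → ℝ} (h : Good D) (b b' : B) : D b b' = D b' b := by
  obtain ⟨ι, i, W, H⟩ := h Unit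
  obtain ⟨f, -, d, -⟩ := H (fun _ => ())
  rw [← d, ← d, sq_comm]

theorem Good.diag {B : Type} {D : B → B → ℝ} (h : Good D) (b : B) : D b b = 0 := by
  obtain ⟨ι, i, W, H⟩ := h Unit
  obtain ⟨f, -, d, -⟩ := H (fun _ => ())
  rw [← d, sq_self]

theorem Good.add {B : Type} {D₁ D₂ : B → B → ℝ} (h₁ : Good D₁) (h₂ : Good D₂) :
    Good (fun b b' => D₁ b b' + D₂ b b') := by
  intro κ _
  obtain ⟨ι₂, i₂, W₂, H₂⟩ := h₂ κ
  obtain ⟨ι₁, i₁, W₁, H₁⟩ := h₁ (↥W₂ → κ)
  classical
  refine ⟨ι₁ ⊕ ι₂, inferInstance, (W₁ ×ˢ W₂).image (fun p => Sum.elim p.1 p.2), fun c => ?_⟩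
  obtain ⟨f₁, m₁, d₁, c₁⟩ := H₁ (fun u w => c (Sum.elim u w))
  rcases isEmpty_or_nonempty B with hB | ⟨⟨b₀⟩⟩
  · exact ⟨fun b => (hB.false b).elim, fun b => (hB.false b).elim, fun b => (hB.false b).elim,
      fun b => (hB.false b).elim⟩
  · obtain ⟨f₂, m₂, d₂, c₂⟩ := H₂ (fun w => c (Sum.elim (f₁ b₀) w))
    refine ⟨fun b => Sum.elim (f₁ b) (f₂ b), fun b => ?_, fun b b' => ?_, ?_⟩
    · exact Finset.mem_image.mpr ⟨(f₁ b, f₂ b), Finset.mem_product.mpr ⟨m₁ b, m₂ b⟩, rfl⟩
    · rw [sq_sumElim, d₁, d₂]
    · have key : ∀ b, c (Sum.elim (f₁ b) (f₂ b)) = c (Sum.elim (f₁ b₀) (f₂ b₀)) := by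
        intro b
        have e1 := congrFun (c₁ b b₀) ⟨f₂ b, m₂ b⟩
        simp only at e1
        rw [e1]
        exact c₂ b b₀
      intro b b'
      simp only [key b, key b']

theorem Good.smul {B : Type} {D : B → B → ℝ} (h : Good D) {t : ℝ} (ht : 0 ≤ t) :
    Good (fun b b' => t * D b b') := by
  intro κ _
  obtain ⟨ι, i, W, H⟩ := h κ
  classical
  refine ⟨ι, i, W.image (fun w => √t • w), fun c => ?_⟩
  obtain ⟨f, m, d, e⟩ := H (fun u => c (√t • u))
  refine ⟨fun b => √t • f b, fun b => Finset.mem_image_of_mem _ (m b), fun b b' => ?_, fun b b' => e b b'⟩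
  rw [sq_smul, d, Real.sq_sqrt ht]

/-- cut metrics -/
theorem Good.cut {B : Type} (S : B → Prop) [DecidablePred S] {t : ℝ} (ht : 0 ≤ t) :
    Good (fun b b' => if (S b ↔ S b') then 0 else t) := by
  intro κ _
  classical
  have := Fintype.ofFinite κ
  obtain ⟨r, h0⟩ : ∃ r : ℝ, r ^ 2 = t / 2 := ⟨√(t / 2), Real.sq_sqrt (by positivity)⟩
  let v : Option κ → Option κ → ℝ := fun i => Pi.single i r
  have hv : ∀ i j, i ≠ j → sq (v i) (v j) = t := by
    intro i j hij
    have h1 : ∀ x, (v i x - v j x) ^ 2 = (if x = i then t / 2 else 0) + (if x = j then t / 2 else 0) := by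
      intro x
      by_cases hi : x = i
      · subst hi
        have : x ≠ j := hij
        simp [v, this, h0]
      · by_cases hj : x = j
        · subst hj
          simp [v, hi, h0]
        · simp [v, hi, hj]
    unfold sq
    rw [Finset.sum_congr rfl fun x _ => h1 x, Finset.sum_add_distrib]
    simp
  refine ⟨Option κ, inferInstance, Finset.univ.image v, fun c => ?_⟩
  obtain ⟨i, j, hij, e⟩ := Fintype.exists_ne_map_eq_of_card_lt (fun i : Option κ => c (v i))
    (by simp)
  refine ⟨fun b => if S b then v i else v j, fun b => ?_, fun b b' => ?_, fun b b' => ?_⟩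
  · dsimp only
    split_ifs
    · exact Finset.mem_image_of_mem _ (Finset.mem_univ _)
    · exact Finset.mem_image_of_mem _ (Finset.mem_univ _)
  · by_cases h : S b <;> by_cases h' : S b' <;> simp [h, h', sq_self, hv _ _ hij, hv _ _ hij.symm]
  · have e' : c (v i) = c (v j) := e
    by_cases h : S b <;> by_cases h' : S b' <;> simp [h, h', e']

theorem Good.zero {B : Type} : Good (fun _ _ : B => (0 : ℝ)) :=
  (Good.cut (fun _ : B => True) (le_refl (0 : ℝ))).congr (by simp)

theorem Good.sum {B T : Type} (s : Finset T) {D : T → B → B → ℝ} (h : ∀ i ∈ s, Good (D i)) :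
    Good (fun b b' => ∑ i ∈ s, D i b b') := by
  classical
  induction s using Finset.induction_on with
  | empty => simpa using Good.zero
  | insert a s ha ih =>
    refine (Good.add (h a (Finset.mem_insert_self _ _))
      (ih fun i hi => h i (Finset.mem_insert_of_mem hi))).congr fun b b' => ?_
    rw [Finset.sum_insert ha]

/-- nearly regular simplices are products of cuts -/
theorem near_good {B : Type} [Fintype B] [DecidableEq B] (R : B → B → ℝ) (g η : ℝ)
    (h0 : ∀ b, R b b = 0) (hs : ∀ b b', R b b' = R b' b)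
    (hη : 0 ≤ η) (hR : ∀ b b', b ≠ b' → |R b b' - 2 * g| ≤ 2 * η)
    (hg : 2 * η * Fintype.card B ≤ g) : Good R := by
  -- weights of the pair cuts
  let w : B → B → ℝ := fun i j => if i = j then 0 else (g + η - R i j / 2) / 2
  have wnn : ∀ i j, 0 ≤ w i j := by
    intro i j
    by_cases hij : i = j
    · simp [w, hij]
    · have := abs_le.mp (hR i j hij)
      simp only [w, hij, if_false]
      linarith [this.2]
  have wle : ∀ i j, w i j ≤ η := by
    intro i j
    by_cases hij : i = j
    · simp [w, hij, hη]
    · have := abs_le.mp (hR i j hij)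
      simp only [w, hij, if_false]
      linarith [this.1]
  have wsymm : ∀ i j, w i j = w j i := by
    intro i j
    by_cases hij : i = j
    · subst hij; rfl
    · simp only [w, hij, Ne.symm hij, if_false, hs i j]
  let bb : B → ℝ := fun i => ∑ j, w i j
  have hbb : ∀ i, 2 * bb i ≤ g + η := by
    intro i
    have : bb i ≤ ∑ j : B, η := Finset.sum_le_sum fun j _ => wle i j
    rw [Finset.sum_const, Finset.card_univ, nsmul_eq_mul] at this
    nlinarith
  have G1 : Good (fun p q : B => ∑ x : B × B, if ((p = x.1 ∨ p = x.2) ↔ (q = x.1 ∨ q = x.2)) then 0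
      else w x.1 x.2) :=
    Good.sum _ fun x _ => Good.cut (fun p : B => p = x.1 ∨ p = x.2) (wnn x.1 x.2)
  have G2 : Good (fun p q : B => ∑ x : B, if ((p = x) ↔ (q = x)) then 0 else (g + η - 2 * bb x)) :=
    Good.sum _ fun x _ => Good.cut (fun p : B => p = x) (by linarith [hbb x])
  refine (G1.add G2).congr fun p q => ?_
  by_cases hpq : p = q
  · subst hpq
    simp [h0]
  · have e1 : ∀ x : B × B, (if ((p = x.1 ∨ p = x.2) ↔ (q = x.1 ∨ q = x.2)) then 0 else w x.1 x.2)
        = (if x.1 = p then w x.1 x.2 else 0) + (if x.2 = p then w x.1 x.2 else 0)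
          + (if x.1 = q then w x.1 x.2 else 0) + (if x.2 = q then w x.1 x.2 else 0)
          - 2 * (if x.1 = p then (if x.2 = q then w x.1 x.2 else 0) else 0)
          - 2 * (if x.1 = q then (if x.2 = p then w x.1 x.2 else 0) else 0) := by
      rintro ⟨i, j⟩
      simp only
      by_cases hij : i = j
      · subst hij
        have : w i i = 0 := by simp [w]
        simp [this]
      · by_cases a1 : i = p
        · subst a1
          have n1 : i ≠ q := hpq
          have n2 : j ≠ i := fun h => hij h.symm
          by_cases a2 : j = q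
          · subst a2
            simp [n1, n2]
            ring
          · have n3 : q ≠ i := fun h => n1 h.symm
            have n4 : q ≠ j := fun h => a2 h.symm
            simp [n1, n2, n3, n4, a2]
        · have n1 : p ≠ i := fun h => a1 h.symm
          by_cases a2 : i = q
          · subst a2
            have n2 : j ≠ i := fun h => hij h.symm
            by_cases a3 : j = p
            · subst a3
              simp [n1, hij]
              ring
            · have n3 : p ≠ j := fun h => a3 h.symm
              simp [a1, n1, n2, n3, a3]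
          · have n2 : q ≠ i := fun h => a2 h.symm
            by_cases a3 : j = p
            · subst a3
              have n3 : j ≠ q := hpq
              have n4 : q ≠ j := fun h => n3 h.symm
              simp [a1, a2, n2, n3, n4]
            · have n3 : p ≠ j := fun h => a3 h.symm
              by_cases a4 : j = q
              · subst a4
                simp [a1, a2, n1, a3, n3]
              · have n4 : q ≠ j := fun h => a4 h.symm
                simp [a1, a2, n1, n2, a3, n3, a4, n4]
    have e2 : ∀ x : B, (if ((p = x) ↔ (q = x)) then 0 else (g + η - 2 * bb x))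
        = (if x = p then (g + η - 2 * bb x) else 0) + (if x = q then (g + η - 2 * bb x) else 0) := by
      intro x
      by_cases a1 : x = p
      · subst a1
        have n3 : q ≠ x := fun h => hpq h.symm
        simp [hpq, n3]
      · have n1 : p ≠ x := fun h => a1 h.symm
        by_cases a2 : x = q
        · subst a2
          simp [a1, n1]
        · have n2 : q ≠ x := fun h => a2 h.symm
          simp [a1, n1, a2, n2]
    rw [Finset.sum_congr rfl fun x _ => e1 x, Finset.sum_congr rfl fun x _ => e2 x]
    simp only [Finset.sum_sub_distrib, Finset.sum_add_distrib, ← Finset.mul_sum,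
      Fintype.sum_prod_type]
    simp only [Finset.sum_ite_eq', Finset.mem_univ, if_true, Finset.sum_ite_irrel,
      Finset.sum_const_zero]
    have s1 : ∀ i, ∑ x, w x i = bb i := fun i => Finset.sum_congr rfl fun x _ => wsymm x i
    have s2 : ∀ i, ∑ x, w i x = bb i := fun i => rfl
    simp only [s1, s2]
    have s3 : w p q = (g + η - R p q / 2) / 2 := by simp [w, hpq]
    rw [wsymm q p, s3]
    ring

end Pool.Agent.N479.ER
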