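import Pool.Agent.N479.ER.Basic

set_option autoImplicit false

/-! # Extending congruences of finite families, and compactness -/

namespace Pool.Agent.N479.ER

open Finset

/-- compactness -/
theorem compactness {ι T κ : Type} [Fintype ι] [Finite T] [Finite κ] (D : T → T → ℝ) (m : ℕ)
    (H : ∀ c : (ι → ℝ) → κ, (Set.range c).ncard ≤ m → ∃ f : T → ι → ℝ,
      (∀ a b, sq (f a) (f b) = D a b) ∧ ∀ a b, c (f a) = c (f b)) :
    ∃ W : Finset (ι → ℝ), ∀ c : ↥W → κ, (Set.range c).ncard ≤ m → ∃ f : T → ↥W,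
      (∀ a b, sq (f a : ι → ℝ) (f b) = D a b) ∧ ∀ a b, c (f a) = c (f b) := by
  classical
  by_contra hcon
  push Not at hcon
  choose c hc hbad using hcon
  let U : Ultrafilter (Finset (ι → ℝ)) := Ultrafilter.of Filter.atTop
  have hU : (U : Filter (Finset (ι → ℝ))) ≤ Filter.atTop := Ultrafilter.of_le _
  have hmem : ∀ v : ι → ℝ, ∀ᶠ W in (U : Filter (Finset (ι → ℝ))), v ∈ W := by
    intro v
    have h1 : ∀ᶠ W in (Filter.atTop : Filter (Finset (ι → ℝ))), ({v} : Finset _) ≤ W :=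
      Filter.eventually_ge_atTop _
    exact Filter.Eventually.mono (Filter.Eventually.filter_mono hU h1)
      fun W hW => hW (Finset.mem_singleton_self v)
  have hk : ∀ v : ι → ℝ, ∃ k : κ, ∀ᶠ W in (U : Filter (Finset (ι → ℝ))),
      ∃ h : v ∈ W, c W ⟨v, h⟩ = k := by
    intro v
    rw [← Ultrafilter.eventually_exists_iff]
    exact (hmem v).mono fun W hW => ⟨c W ⟨v, hW⟩, hW, rfl⟩
  choose k hk using hk
  obtain ⟨R, hR⟩ : ∃ R : Set κ, ∀ᶠ W in (U : Filter (Finset (ι → ℝ))), Set.range (c W) = R := by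
    rw [← Ultrafilter.eventually_exists_iff]
    exact Filter.Eventually.of_forall fun W => ⟨_, rfl⟩
  have hRm : R.ncard ≤ m := by
    obtain ⟨W, hW⟩ := hR.exists
    rw [← hW]
    exact hc W
  have hkR : Set.range k ⊆ R := by
    rintro _ ⟨v, rfl⟩
    obtain ⟨W, hW, h, e⟩ := (hR.and (hk v)).exists
    rw [← hW, ← e]
    exact Set.mem_range_self _
  obtain ⟨f, fd, fc⟩ := H k ((Set.ncard_le_ncard hkR (Set.toFinite _)).trans hRm)
  have hall : ∀ᶠ W in (U : Filter (Finset (ι → ℝ))), ∀ a, ∃ h : f a ∈ W, c W ⟨f a, h⟩ = k (f a) := by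
    rw [Filter.eventually_all]
    intro a
    exact hk (f a)
  obtain ⟨W, hW⟩ := hall.exists
  choose h e using hW
  obtain ⟨a, b, hab⟩ := hbad W (fun a => ⟨f a, h a⟩) (fun a b => fd a b)
  exact hab (by rw [e, e]; exact fc a b)

/-- congruences of finite families extend -/
theorem extend {P B ι κ : Type} [Finite P] [Nonempty P] [Fintype ι] [Fintype κ]
    (u : P → κ → ℝ) (v : P → ι → ℝ) (huv : ∀ p p', sq (u p) (u p') = sq (v p) (v p'))
    (u' : B → κ → ℝ) :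
    ∃ q : B → (ι ⊕ κ → ℝ), (∀ b p, sq (q b) (Sum.elim (v p) 0) = sq (u' b) (u p)) ∧
      ∀ b b', sq (q b) (q b') = sq (u' b) (u' b') := by
  classical
  have := Fintype.ofFinite P
  obtain ⟨p₀⟩ := ‹Nonempty P›
  have sqn : ∀ {τ : Type} [Fintype τ] (a b : τ → ℝ),
      ‖(WithLp.toLp 2 a : EuclideanSpace ℝ τ) - WithLp.toLp 2 b‖ ^ 2 = sq a b := by
    intro τ _ a b
    rw [EuclideanSpace.norm_sq_eq]
    simp [sq]
  let E₁ : (ι → ℝ) → EuclideanSpace ℝ (ι ⊕ κ) := fun a => WithLp.toLp 2 (Sum.elim a 0)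
  let E₂ : (κ → ℝ) → EuclideanSpace ℝ (ι ⊕ κ) := fun a => WithLp.toLp 2 (Sum.elim 0 a)
  have n₁ : ∀ a b, ‖E₁ a - E₁ b‖ ^ 2 = sq a b := fun a b => by
    rw [sqn, sq_sumElim, sq_self, add_zero]
  have n₂ : ∀ a b, ‖E₂ a - E₂ b‖ ^ 2 = sq a b := fun a b => by
    rw [sqn, sq_sumElim, sq_self, zero_add]
  let x : P → EuclideanSpace ℝ (ι ⊕ κ) := fun p => E₂ (u p) - E₂ (u p₀)
  let y : P → EuclideanSpace ℝ (ι ⊕ κ) := fun p => E₁ (v p) - E₁ (v p₀)
  have hin : ∀ p p', inner ℝ (x p) (x p') = inner ℝ (y p) (y p') := by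
    intro p p'
    have h1 := norm_sub_sq_real (x p) (x p')
    have h2 := norm_sub_sq_real (y p) (y p')
    have e1 : x p - x p' = E₂ (u p) - E₂ (u p') := by simp only [x]; abel
    have e2 : y p - y p' = E₁ (v p) - E₁ (v p') := by simp only [y]; abel
    rw [e1, n₂, n₂, n₂] at h1
    rw [e2, n₁, n₁, n₁] at h2
    rw [huv, huv, huv] at h1
    linarith
  let φ := Fintype.linearCombination ℝ x
  let ψ := Fintype.linearCombination ℝ y
  have hnorm : ∀ α, ‖φ α‖ = ‖ψ α‖ := by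
    intro α
    have h1 : ‖φ α‖ ^ 2 = ‖ψ α‖ ^ 2 := by
      rw [← real_inner_self_eq_norm_sq, ← real_inner_self_eq_norm_sq]
      simp only [φ, ψ, Fintype.linearCombination_apply, sum_inner, inner_sum, inner_smul_left,
        inner_smul_right, hin]
    exact (sq_eq_sq₀ (norm_nonneg _) (norm_nonneg _)).mp h1
  have hker : LinearMap.ker φ ≤ LinearMap.ker ψ := by
    intro α hα
    rw [LinearMap.mem_ker] at hα ⊢
    have := hnorm α
    rw [hα, norm_zero] at this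
    exact norm_eq_zero.mp this.symm
  let L₀ : LinearMap.range φ →ₗ[ℝ] EuclideanSpace ℝ (ι ⊕ κ) :=
    ((LinearMap.ker φ).liftQ ψ hker) ∘ₗ (φ.quotKerEquivRange.symm : _ →ₗ[ℝ] _)
  have hL₀ : ∀ α (h : φ α ∈ LinearMap.range φ), L₀ ⟨φ α, h⟩ = ψ α := by
    intro α h
    simp only [L₀, LinearMap.comp_apply, LinearEquiv.coe_coe]
    rw [LinearMap.quotKerEquivRange_symm_apply_image]
    simp
  let L₁ : LinearMap.range φ →ₗᵢ[ℝ] EuclideanSpace ℝ (ι ⊕ κ) := ⟨L₀, by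
    rintro ⟨z, hz⟩
    obtain ⟨α, rfl⟩ := LinearMap.mem_range.mp hz
    exact (congrArg norm (hL₀ α hz)).trans (hnorm α).symm⟩
  let L := L₁.extend
  have hL : ∀ p, L (x p) = y p := by
    intro p
    have h1 : φ (Pi.single p 1) = x p := by simp [φ]
    have h2 : ψ (Pi.single p 1) = y p := by simp [ψ]
    rw [← h1, ← h2]
    have h3 := L₁.extend_apply ⟨φ (Pi.single p 1), ⟨_, rfl⟩⟩
    exact h3.trans (hL₀ _ _)
  let Q : B → EuclideanSpace ℝ (ι ⊕ κ) := fun b => L (E₂ (u' b) - E₂ (u p₀)) + E₁ (v p₀)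
  refine ⟨fun b => (Q b).ofLp, fun b p => ?_, fun b b' => ?_⟩
  · rw [← sqn]
    have e : (WithLp.toLp 2 (Q b).ofLp : EuclideanSpace ℝ (ι ⊕ κ)) - WithLp.toLp 2 (Sum.elim (v p) 0)
        = L (E₂ (u' b) - E₂ (u p)) := by
      have h1 : E₂ (u' b) - E₂ (u p) = (E₂ (u' b) - E₂ (u p₀)) - x p := by simp only [x]; abel
      rw [h1, map_sub, hL]
      change Q b - E₁ (v p) = _
      simp only [Q, y]
      abel
    rw [e, L.norm_map, n₂]
  · rw [← sqn]
    have e : (WithLp.toLp 2 (Q b).ofLp : EuclideanSpace ℝ (ι ⊕ κ)) - WithLp.toLp 2 (Q b').ofLp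
        = L (E₂ (u' b) - E₂ (u' b')) := by
      have h1 : E₂ (u' b) - E₂ (u' b') = (E₂ (u' b) - E₂ (u p₀)) - (E₂ (u' b') - E₂ (u p₀)) := by
        abel
      rw [h1, map_sub]
      change Q b - Q b' = _
      simp only [Q]
      abel
    rw [e, L.norm_map, n₂]

end Pool.Agent.N479.ER
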