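import Pool.Agent.N479.ER.Basic

set_option autoImplicit false

/-! # Nearly collinear simplices, and all simplices, are found monochromatic (Frankl and Rödl) -/

namespace Pool.Agent.N479.ER

open Finset

/-! ### finite Ramsey theorem for `L`-subsets -/

theorem endhom {κ : Type} {L : ℕ}
    (ih : ∀ m : ℕ, ∃ M : ℕ, ∀ (V : Finset ℕ), M ≤ V.card → ∀ c : Finset ℕ → κ,
      ∃ H ⊆ V, H.card = m ∧ ∃ i, ∀ s ⊆ H, s.card = L → c s = i) :
    ∀ t : ℕ, ∃ M : ℕ, ∀ (V : Finset ℕ), M ≤ V.card → ∀ c : Finset ℕ → κ,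
      ∃ W ⊆ V, W.card = t ∧ ∃ g : ℕ → κ,
        ∀ s ⊆ W, s.card = L + 1 → ∃ x ∈ s, c s = g x := by
  intro t
  induction t with
  | zero =>
    refine ⟨0, fun V _ c => ⟨∅, by simp, by simp, fun _ => c ∅, ?_⟩⟩
    intro s hs hc
    have : s = ∅ := Finset.subset_empty.mp hs
    simp [this] at hc
  | succ t iht =>
    obtain ⟨M1, hM1⟩ := iht
    obtain ⟨M2, hM2⟩ := ih M1
    refine ⟨M2 + 1, fun V hV c => ?_⟩
    have hne : V.Nonempty := by
      rw [← Finset.card_pos]; omega
    obtain ⟨x, hx⟩ := hne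
    obtain ⟨H, hHV, hHc, i, hi⟩ := hM2 (V.erase x)
      (by rw [Finset.card_erase_of_mem hx]; omega) (fun s => c (insert x s))
    obtain ⟨W, hWH, hWc, g, hg⟩ := hM1 H (by omega) c
    have hxW : x ∉ W := fun h => by
      have := hHV (hWH h)
      simp at this
    refine ⟨insert x W, ?_, ?_, fun y => if y = x then i else g y, ?_⟩
    · intro y hy
      rcases Finset.mem_insert.mp hy with rfl | hy
      · exact hx
      · exact Finset.mem_of_mem_erase (hHV (hWH hy))
    · rw [Finset.card_insert_of_notMem hxW, hWc]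
    · intro s hs hc
      by_cases hxs : x ∈ s
      · refine ⟨x, hxs, ?_⟩
        have h1 : s.erase x ⊆ H := by
          intro y hy
          have hy1 := Finset.ne_of_mem_erase hy
          have hy2 := Finset.mem_of_mem_erase hy
          rcases Finset.mem_insert.mp (hs hy2) with h | h
          · exact absurd h hy1
          · exact hWH h
        have h2 : (s.erase x).card = L := by
          rw [Finset.card_erase_of_mem hxs]; omega
        have h3 := hi (s.erase x) h1 h2
        simp only [Finset.insert_erase hxs] at h3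
        simp [h3]
      · have h1 : s ⊆ W := by
          intro y hy
          rcases Finset.mem_insert.mp (hs hy) with h | h
          · subst h; exact absurd hy hxs
          · exact h
        obtain ⟨y, hy, hcy⟩ := hg s h1 hc
        refine ⟨y, hy, ?_⟩
        have : y ≠ x := fun h => hxs (h ▸ hy)
        simp [this, hcy]

theorem ramsey (κ : Type) [Finite κ] (L : ℕ) :
    ∀ m : ℕ, ∃ M : ℕ, ∀ (V : Finset ℕ), M ≤ V.card → ∀ c : Finset ℕ → κ,
      ∃ H ⊆ V, H.card = m ∧ ∃ i, ∀ s ⊆ H, s.card = L → c s = i := by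
  classical
  have := Fintype.ofFinite κ
  induction L with
  | zero =>
    intro m
    refine ⟨m, fun V hV c => ?_⟩
    obtain ⟨H, hH, hc⟩ := Finset.exists_subset_card_eq hV
    refine ⟨H, hH, hc, c ∅, ?_⟩
    intro s _ hs
    rw [Finset.card_eq_zero.mp hs]
  | succ L ih =>
    intro m
    obtain ⟨M, hM⟩ := endhom ih (Fintype.card κ * m)
    refine ⟨M, fun V hV c => ?_⟩
    obtain ⟨W, hWV, hWc, g, hg⟩ := hM V hV c
    obtain ⟨i, -, hi⟩ := Finset.exists_le_card_fiber_of_mul_le_card_of_maps_to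
      (s := W) (t := (Finset.univ : Finset κ)) (f := g) (n := m)
      (fun _ _ => Finset.mem_univ _) ⟨c ∅, Finset.mem_univ _⟩ (by simp [hWc])
    obtain ⟨H, hH, hc⟩ := Finset.exists_subset_card_eq hi
    refine ⟨H, fun x hx => hWV (Finset.mem_filter.mp (hH hx)).1, hc, i, ?_⟩
    intro s hs hsc
    obtain ⟨x, hx, hcx⟩ := hg s (fun y hy => (Finset.mem_filter.mp (hH (hs hy))).1) hsc
    rw [hcx]
    exact (Finset.mem_filter.mp (hH (hs hx))).2

/-! ### spread vectors -/

/-- the triangle sequence -/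
noncomputable def tri (M : ℕ) (l : ℤ) : ℝ := max 0 ((M : ℝ) - |(l : ℝ)|)

lemma tri_eq_zero {M : ℕ} {l : ℤ} (h : (M : ℤ) ≤ |l|) : tri M l = 0 := by
  unfold tri
  have : (M : ℝ) ≤ |(l : ℝ)| := by exact_mod_cast h
  exact max_eq_left (by linarith)

lemma tri_eq_of_nonneg {M : ℕ} {l : ℤ} (h0 : 0 ≤ l) (h : l ≤ M) : tri M l = M - l := by
  unfold tri
  have h1 : (0 : ℝ) ≤ (l : ℝ) := by exact_mod_cast h0
  have h2 : (l : ℝ) ≤ (M : ℝ) := by exact_mod_cast h
  rw [abs_of_nonneg h1, max_eq_right (by linarith)]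

lemma tri_eq_of_nonpos {M : ℕ} {l : ℤ} (h0 : l ≤ 0) (h : -(M : ℤ) ≤ l) : tri M l = M + l := by
  unfold tri
  have h1 : (l : ℝ) ≤ 0 := by exact_mod_cast h0
  have h2 : -(M : ℝ) ≤ (l : ℝ) := by exact_mod_cast h
  rw [abs_of_nonpos h1, max_eq_right (by linarith)]
  ring

lemma tri_lip (M : ℕ) (l k : ℤ) : |tri M l - tri M k| ≤ |(l : ℝ) - k| := by
  unfold tri
  rw [max_comm, max_comm (0 : ℝ)]
  refine (abs_max_sub_max_le_abs _ _ _).trans ?_
  have h := abs_abs_sub_abs_le_abs_sub (l : ℝ) (k : ℝ)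
  rw [abs_sub_comm] at h
  convert h using 2
  ring

/-- squared distance of two windows -/
noncomputable def TT (M n s s' : ℕ) : ℝ :=
  ∑ j ∈ range n, (tri M ((j : ℤ) - s - M) - tri M ((j : ℤ) - s' - M)) ^ 2

lemma TT_comm (M n s s' : ℕ) : TT M n s s' = TT M n s' s := by
  unfold TT
  exact Finset.sum_congr rfl fun j _ => by ring

lemma TT_upper (M n s s' : ℕ) (h : s ≤ s') :
    TT M n s s' ≤ (2 * M + ((s' : ℝ) - s)) * ((s' : ℝ) - s) ^ 2 := by
  unfold TT
  have ht : (0 : ℝ) ≤ (s' : ℝ) - s := by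
    have : (s : ℝ) ≤ s' := by exact_mod_cast h
    linarith
  have h1 : ∀ j ∈ range n, (tri M ((j : ℤ) - s - M) - tri M ((j : ℤ) - s' - M)) ^ 2 ≤
      if j ∈ Ioo s (s' + 2 * M) then ((s' : ℝ) - s) ^ 2 else 0 := by
    intro j _
    split_ifs with hj
    · have := tri_lip M ((j : ℤ) - s - M) ((j : ℤ) - s' - M)
      have e : |(((j : ℤ) - s - M : ℤ) : ℝ) - (((j : ℤ) - s' - M : ℤ) : ℝ)| = (s' : ℝ) - s := by
        push_cast
        rw [show (j : ℝ) - s - M - (j - s' - M) = (s' : ℝ) - s by ring, abs_of_nonneg ht]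
      rw [e] at this
      exact sq_le_sq' (by linarith [(abs_le.mp this).1]) (abs_le.mp this).2
    · rw [Finset.mem_Ioo, not_and_or, not_lt, not_lt] at hj
      have z : tri M ((j : ℤ) - s - M) = 0 ∧ tri M ((j : ℤ) - s' - M) = 0 := by
        rcases hj with hj | hj
        · constructor
          · apply tri_eq_zero
            rw [abs_of_nonpos (by omega)]
            omega
          · apply tri_eq_zero
            rw [abs_of_nonpos (by omega)]
            omega
        · constructor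
          · apply tri_eq_zero
            rw [abs_of_nonneg (by omega)]
            omega
          · apply tri_eq_zero
            rw [abs_of_nonneg (by omega)]
            omega
      rw [z.1, z.2]
      simp
  refine (Finset.sum_le_sum h1).trans ?_
  rw [Finset.sum_ite_mem, Finset.sum_const, nsmul_eq_mul]
  refine mul_le_mul_of_nonneg_right ?_ (sq_nonneg _)
  have h2 : (range n ∩ Ioo s (s' + 2 * M)).card ≤ s' + 2 * M - s - 1 := by
    refine (Finset.card_le_card Finset.inter_subset_right).trans ?_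
    rw [Nat.card_Ioo]
  have h3 : ((range n ∩ Ioo s (s' + 2 * M)).card : ℝ) ≤ ((s' + 2 * M - s : ℕ) : ℝ) := by
    exact_mod_cast h2.trans (Nat.sub_le _ _)
  rw [Nat.cast_sub (by omega)] at h3
  push_cast at h3
  linarith

lemma TT_lower (M n s s' : ℕ) (h : s ≤ s') (hM : s' ≤ s + M) (hn : s + 2 * M ≤ n) :
    (2 * (M - ((s' : ℝ) - s))) * ((s' : ℝ) - s) ^ 2 ≤ TT M n s s' := by
  unfold TT
  have hd : Disjoint (Ico s' (s + M)) (Ico (s' + M) (s + 2 * M)) := by
    rw [Finset.disjoint_left]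
    intro j h1 h2
    rw [Finset.mem_Ico] at h1 h2
    omega
  have hsub : Ico s' (s + M) ∪ Ico (s' + M) (s + 2 * M) ⊆ range n := by
    intro j hj
    rw [Finset.mem_union, Finset.mem_Ico, Finset.mem_Ico] at hj
    rw [Finset.mem_range]
    omega
  refine le_trans ?_ (Finset.sum_le_sum_of_subset_of_nonneg hsub fun _ _ _ => sq_nonneg _)
  rw [Finset.sum_union hd]
  have e1 : ∀ j ∈ Ico s' (s + M), (tri M ((j : ℤ) - s - M) - tri M ((j : ℤ) - s' - M)) ^ 2
      = ((s' : ℝ) - s) ^ 2 := by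
    intro j hj
    rw [Finset.mem_Ico] at hj
    rw [tri_eq_of_nonpos (by omega) (by omega), tri_eq_of_nonpos (by omega) (by omega)]
    push_cast
    ring
  have e2 : ∀ j ∈ Ico (s' + M) (s + 2 * M),
      (tri M ((j : ℤ) - s - M) - tri M ((j : ℤ) - s' - M)) ^ 2 = ((s' : ℝ) - s) ^ 2 := by
    intro j hj
    rw [Finset.mem_Ico] at hj
    rw [tri_eq_of_nonneg (by omega) (by omega), tri_eq_of_nonneg (by omega) (by omega)]
    push_cast
    ring
  rw [Finset.sum_congr rfl e1, Finset.sum_congr rfl e2, Finset.sum_const, Finset.sum_const,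
    Nat.card_Ico, Nat.card_Ico, nsmul_eq_mul, nsmul_eq_mul, Nat.cast_sub hM,
    Nat.cast_sub (by omega)]
  push_cast
  apply le_of_eq
  ring

/-- the spread vector carried by the set `I` -/
noncomputable def spread (M N : ℕ) (I : Finset ℕ) (x : Fin N) : ℝ :=
  if (x : ℕ) ∈ I then tri M (((I.filter (· < (x : ℕ))).card : ℤ) - M) else 0

/-- the window of width `2 M + 1` starting at `s` in an increasing sequence -/
def win {n : ℕ} (e : Fin n ↪o ℕ) (M s : ℕ) : Finset ℕ :=
  (univ.filter fun j : Fin n => s ≤ (j : ℕ) ∧ (j : ℕ) < s + (2 * M + 1)).map e.toEmbedding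

lemma mem_win {n : ℕ} (e : Fin n ↪o ℕ) (M s : ℕ) (j : Fin n) :
    e j ∈ win e M s ↔ s ≤ (j : ℕ) ∧ (j : ℕ) < s + (2 * M + 1) := by
  simp [win]

lemma card_filter_fin (n a b : ℕ) (hb : b ≤ n) :
    (univ.filter fun j : Fin n => a ≤ (j : ℕ) ∧ (j : ℕ) < b).card = b - a := by
  rw [← Nat.card_Ico]
  refine Finset.card_bij (fun j _ => (j : ℕ)) ?_ ?_ ?_
  · intro j hj
    simpa using hj
  · intro j _ k _ h
    exact Fin.ext h
  · intro k hk
    rw [Finset.mem_Ico] at hk
    exact ⟨⟨k, by omega⟩, by simp [hk], rfl⟩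

lemma card_win {n : ℕ} (e : Fin n ↪o ℕ) (M s : ℕ) (h : s + (2 * M + 1) ≤ n) :
    (win e M s).card = 2 * M + 1 := by
  rw [win, Finset.card_map, card_filter_fin _ _ _ h]
  omega

lemma rank_win {n : ℕ} (e : Fin n ↪o ℕ) (M s : ℕ) (j : Fin n) (h1 : s ≤ (j : ℕ))
    (h2 : (j : ℕ) < s + (2 * M + 1)) : ((win e M s).filter (· < e j)).card = j - s := by
  have : (win e M s).filter (· < e j) =
      (univ.filter fun i : Fin n => s ≤ (i : ℕ) ∧ (i : ℕ) < (j : ℕ)).map e.toEmbedding := by
    ext x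
    simp only [win, Finset.mem_filter, Finset.mem_map, Finset.mem_univ, true_and,
      RelEmbedding.coe_toEmbedding]
    constructor
    · rintro ⟨⟨i, hi, rfl⟩, h⟩
      rw [e.lt_iff_lt] at h
      exact ⟨i, ⟨hi.1, h⟩, rfl⟩
    · rintro ⟨i, hi, rfl⟩
      exact ⟨⟨i, ⟨hi.1, by omega⟩, rfl⟩, e.lt_iff_lt.mpr hi.2⟩
  rw [this, Finset.card_map, card_filter_fin _ _ _ (by omega)]

lemma spread_win {n N : ℕ} (e : Fin n ↪o ℕ) (M s : ℕ) (j : Fin n) (hj : e j < N) :
    spread M N (win e M s) ⟨e j, hj⟩ = tri M ((j : ℤ) - s - M) := by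
  unfold spread
  simp only [mem_win]
  split_ifs with h
  · rw [rank_win e M s j h.1 h.2, Nat.cast_sub h.1]
  · rw [not_and_or, not_le, not_lt] at h
    symm
    apply tri_eq_zero
    rcases h with h | h
    · rw [abs_of_nonpos (by omega)]
      omega
    · rw [abs_of_nonneg (by omega)]
      omega

lemma sq_spread {n N : ℕ} (e : Fin n ↪o ℕ) (M s s' : ℕ) (he : ∀ j, e j < N) :
    sq (spread M N (win e M s)) (spread M N (win e M s')) = TT M n s s' := by
  unfold sq TT
  rw [Finset.sum_range fun j => (tri M ((j : ℤ) - s - M) - tri M ((j : ℤ) - s' - M)) ^ 2]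
  let e' : Fin n ↪ Fin N := ⟨fun j => ⟨e j, he j⟩, fun i j h => by
    have := congrArg Fin.val h
    exact e.injective this⟩
  have h1 : ∑ x : Fin N, (spread M N (win e M s) x - spread M N (win e M s') x) ^ 2
      = ∑ x ∈ univ.map e', (spread M N (win e M s) x - spread M N (win e M s') x) ^ 2 := by
    symm
    apply Finset.sum_subset (Finset.subset_univ _)
    intro x _ hx
    have hx' : ∀ s, spread M N (win e M s) x = 0 := by
      intro s
      unfold spread
      rw [if_neg]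
      intro h
      apply hx
      simp only [win, Finset.mem_map, Finset.mem_filter, Finset.mem_univ, true_and,
        RelEmbedding.coe_toEmbedding] at h
      obtain ⟨j, -, h⟩ := h
      rw [Finset.mem_map]
      exact ⟨j, Finset.mem_univ _, Fin.ext h⟩
    rw [hx', hx']
    simp
  rw [h1, Finset.sum_map]
  refine Finset.sum_congr rfl fun j _ => ?_
  have : ∀ s, spread M N (win e M s) (e' j) = tri M ((j : ℤ) - s - M) :=
    fun s => spread_win e M s j (he j)
  rw [this, this]

theorem TT_good {B : Type} (τ : B → ℕ) (M n : ℕ) (hτ : ∀ b, τ b + (2 * M + 1) ≤ n) :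
    Good (fun b b' => TT M n (τ b) (τ b')) := by
  intro κ _
  classical
  obtain ⟨N, hN⟩ := ramsey κ (2 * M + 1) n
  refine ⟨Fin N, inferInstance, (range N).powerset.image (fun I => spread M N I), fun c => ?_⟩
  obtain ⟨H, hH, hc, i, hi⟩ := hN (range N) (by simp) (fun I => c (spread M N I))
  let e := H.orderEmbOfFin hc
  have hmem : ∀ j, e j ∈ H := fun j => Finset.orderEmbOfFin_mem H hc j
  have hlt : ∀ j, e j < N := fun j => Finset.mem_range.mp (hH (hmem j))
  have hsub : ∀ s, win e M s ⊆ H := by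
    intro s x hx
    simp only [win, Finset.mem_map, Finset.mem_filter, Finset.mem_univ, true_and,
      RelEmbedding.coe_toEmbedding] at hx
    obtain ⟨j, -, rfl⟩ := hx
    exact hmem j
  refine ⟨fun b => spread M N (win e M (τ b)), fun b => ?_, fun b b' => sq_spread e M _ _ hlt, ?_⟩
  · exact Finset.mem_image_of_mem _ (Finset.mem_powerset.mpr ((hsub _).trans hH))
  · have key : ∀ b, c (spread M N (win e M (τ b))) = i := fun b =>
      hi _ (hsub _) (card_win e M _ (hτ b))
    intro b b'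
    rw [key, key]

theorem line_nat {B : Type} [Finite B] (τ : B → ℕ) (ε : ℝ) (hε : 0 < ε) :
    ∃ L : B → B → ℝ, Good L ∧ ∀ b b', |L b b' - ((τ b : ℝ) - τ b') ^ 2| ≤ ε := by
  classical
  have := Fintype.ofFinite B
  obtain ⟨S, hS⟩ : ∃ S : ℕ, ∀ b, τ b ≤ S := ⟨univ.sup τ, fun b => Finset.le_sup (Finset.mem_univ b)⟩
  obtain ⟨M₀, hM₀⟩ := exists_nat_gt ((S : ℝ) ^ 3 / ε)
  let M := M₀ + S + 1
  have hMS : S ≤ M := by omega
  have hM1 : (0 : ℝ) < M := by simp only [M]; push_cast; positivity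
  have hM2 : (S : ℝ) ^ 3 ≤ ε * M := by
    have h1 : (S : ℝ) ^ 3 < M₀ * ε := (div_lt_iff₀ hε).mp hM₀
    have h2 : (M₀ : ℝ) ≤ M := by exact_mod_cast (by omega : M₀ ≤ M)
    nlinarith
  have G := TT_good τ M (S + (2 * M + 1)) (fun b => by have := hS b; omega)
  refine ⟨_, G.smul (t := 1 / (2 * M)) (by positivity), ?_⟩
  have key : ∀ s s' : ℕ, s ≤ s' → s' ≤ S →
      |1 / (2 * M) * TT M (S + (2 * M + 1)) s s' - ((s' : ℝ) - s) ^ 2| ≤ ε := by
    intro s s' h h'
    have u := TT_upper M (S + (2 * M + 1)) s s' h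
    have l := TT_lower M (S + (2 * M + 1)) s s' h (by omega) (by omega)
    set T := TT M (S + (2 * M + 1)) s s'
    have t0 : (0 : ℝ) ≤ (s' : ℝ) - s := by
      have : (s : ℝ) ≤ s' := by exact_mod_cast h
      linarith
    have t1 : (s' : ℝ) - s ≤ S := by
      have h1 : (s' : ℝ) ≤ S := by exact_mod_cast h'
      have h2 : (0 : ℝ) ≤ s := by positivity
      linarith
    have t3 : ((s' : ℝ) - s) ^ 3 ≤ ε * M := (pow_le_pow_left₀ t0 t1 3).trans hM2
    set t := (s' : ℝ) - s
    rw [abs_le]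
    have e : 1 / (2 * (M : ℝ)) * T - t ^ 2 = (T - 2 * M * t ^ 2) / (2 * M) := by
      field_simp
    rw [e, le_div_iff₀ (by positivity), div_le_iff₀ (by positivity)]
    constructor
    · nlinarith
    · nlinarith
  intro b b'
  rcases le_total (τ b) (τ b') with h | h
  · have := key _ _ h (hS b')
    rw [show ((τ b : ℝ) - τ b') ^ 2 = ((τ b' : ℝ) - τ b) ^ 2 by ring]
    exact this
  · have := key _ _ h (hS b)
    rw [TT_comm]
    exact this

theorem line_real {B : Type} [Finite B] (t : B → ℝ) (ε : ℝ) (hε : 0 < ε) :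
    ∃ L : B → B → ℝ, Good L ∧ ∀ b b', |L b b' - (t b - t b') ^ 2| ≤ ε := by
  classical
  have := Fintype.ofFinite B
  obtain ⟨R, hR⟩ : ∃ R : ℝ, ∀ b, 0 ≤ t b + R := by
    rcases isEmpty_or_nonempty B with hB | hB
    · exact ⟨0, fun b => (hB.false b).elim⟩
    · obtain ⟨b₀, h₀⟩ := Finite.exists_min t
      exact ⟨- t b₀, fun b => by linarith [h₀ b]⟩
  have lim : ∀ b b', Filter.Tendsto
      (fun n : ℕ => ((⌊(t b + R) * (n : ℝ)⌋₊ : ℝ) / n - (⌊(t b' + R) * (n : ℝ)⌋₊ : ℝ) / n) ^ 2)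
      Filter.atTop (nhds ((t b - t b') ^ 2)) := by
    intro b b'
    have h1 := (tendsto_nat_floor_mul_div_atTop (hR b)).comp (tendsto_natCast_atTop_atTop (R := ℝ))
    have h2 := (tendsto_nat_floor_mul_div_atTop (hR b')).comp (tendsto_natCast_atTop_atTop (R := ℝ))
    have h3 := (h1.sub h2).pow 2
    rw [show t b + R - (t b' + R) = t b - t b' by ring] at h3
    exact h3
  have ev : ∀ᶠ n : ℕ in Filter.atTop, ∀ b b',
      |((⌊(t b + R) * (n : ℝ)⌋₊ : ℝ) / n - (⌊(t b' + R) * (n : ℝ)⌋₊ : ℝ) / n) ^ 2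
        - (t b - t b') ^ 2| < ε / 2 := by
    rw [Filter.eventually_all]
    intro b
    rw [Filter.eventually_all]
    intro b'
    have := (Metric.tendsto_nhds.mp (lim b b')) (ε / 2) (by positivity)
    simpa [Real.dist_eq] using this
  obtain ⟨n, hn, hn0⟩ := (ev.and (Filter.eventually_gt_atTop 0)).exists
  have hn1 : (0 : ℝ) < n := by exact_mod_cast hn0
  obtain ⟨L, gL, hL⟩ := line_nat (fun b => ⌊(t b + R) * (n : ℝ)⌋₊) (ε / 2 * n ^ 2) (by positivity)
  refine ⟨_, gL.smul (t := 1 / (n : ℝ) ^ 2) (by positivity), fun b b' => ?_⟩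
  have h1 := hL b b'
  have h2 := hn b b'
  set p := (⌊(t b + R) * (n : ℝ)⌋₊ : ℝ)
  set q := (⌊(t b' + R) * (n : ℝ)⌋₊ : ℝ)
  have e : 1 / (n : ℝ) ^ 2 * L b b' - (t b - t b') ^ 2
      = (L b b' - (p - q) ^ 2) / n ^ 2 + ((p / n - q / n) ^ 2 - (t b - t b') ^ 2) := by
    field_simp
    ring
  rw [e]
  have h3 : |(L b b' - (p - q) ^ 2) / (n : ℝ) ^ 2| ≤ ε / 2 := by
    rw [abs_div, abs_of_pos (by positivity : (0 : ℝ) < (n : ℝ) ^ 2), div_le_iff₀ (by positivity)]
    exact h1
  have h4 := abs_add_le ((L b b' - (p - q) ^ 2) / (n : ℝ) ^ 2)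
    ((p / n - q / n) ^ 2 - (t b - t b') ^ 2)
  linarith

/-- simplices are found monochromatic (Frankl and Rödl): a finite family, lifted in new pairwise
orthogonal directions -/
theorem simplex_good {B ι : Type} [Finite B] [DecidableEq B] [Fintype ι] (w : B → ι → ℝ) (g : ℝ)
    (hg : 0 < g) : Good (fun b b' => if b = b' then 0 else sq (w b) (w b') + 2 * g) := by
  classical
  have := Fintype.ofFinite B
  -- accuracy
  obtain ⟨η, hη, hη2⟩ : ∃ η : ℝ, 0 < η ∧ 2 * η * Fintype.card B ≤ g := by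
    refine ⟨g / (2 * (Fintype.card B + 1)), by positivity, ?_⟩
    have h1 : (0 : ℝ) < (Fintype.card B : ℝ) + 1 := by positivity
    rw [show 2 * (g / (2 * ((Fintype.card B : ℝ) + 1))) * (Fintype.card B : ℝ)
      = g * ((Fintype.card B : ℝ) / ((Fintype.card B : ℝ) + 1)) by field_simp]
    have h2 : (Fintype.card B : ℝ) / ((Fintype.card B : ℝ) + 1) ≤ 1 := by
      rw [div_le_one h1]; linarith
    nlinarith
  choose L gL hL using fun x : ι => line_real (fun b => w b x)
    (2 * η / (Fintype.card ι + 1)) (by positivity)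
  -- symmetrise
  have gS := Good.sum (univ : Finset ι) fun x _ => gL x
  have hS : ∀ b b', |(∑ x, L x b b') - sq (w b) (w b')| ≤ 2 * η := by
    intro b b'
    unfold sq
    rw [← Finset.sum_sub_distrib]
    refine (Finset.abs_sum_le_sum_abs _ _).trans ?_
    refine (Finset.sum_le_sum fun x _ => hL x b b').trans ?_
    rw [Finset.sum_const, Finset.card_univ, nsmul_eq_mul]
    have h1 : (0 : ℝ) < (Fintype.card ι : ℝ) + 1 := by positivity
    rw [mul_div_assoc', div_le_iff₀ h1]
    nlinarith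
  have sS : ∀ b b', ∑ x, L x b b' = ∑ x, L x b' b := gS.symm
  have dS : ∀ b, ∑ x, L x b b = 0 := gS.diag
  have gR := near_good (fun b b' => if b = b' then 0 else
      sq (w b) (w b') + 2 * g - ∑ x, L x b b') g η (by simp)
    (fun b b' => by
      by_cases h : b = b'
      · subst h; rfl
      · simp only [h, Ne.symm h, if_false, sq_comm (w b) (w b'), sS b b'])
    hη.le
    (fun b b' h => by
      simp only [h, if_false]
      rw [show sq (w b) (w b') + 2 * g - ∑ x, L x b b' - 2 * g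
        = -((∑ x, L x b b') - sq (w b) (w b')) by ring, abs_neg]
      exact hS b b') hη2
  refine (gS.add gR).congr fun b b' => ?_
  by_cases h : b = b'
  · subst h; simp [dS]
  · simp [h]

end Pool.Agent.N479.ER
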