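import Pool.Agent.N479.ER.Line
import Pool.Agent.N479.ER.Extend

set_option autoImplicit false

/-! # A Ramsey set together with one point off its hyperplane is Ramsey -/

namespace Pool.Agent.N479.ER

open Finset

/-- squared distances of `X ∪ {z}`, `z` at squared height `g` above the point `z₀` -/
noncomputable def DT {A δ : Type} [Fintype δ] (x : A → δ → ℝ) (z₀ : δ → ℝ) (g : ℝ) :
    Option A → Option A → ℝ
  | some a, some b => sq (x a) (x b)
  | some a, none => sq (x a) z₀ + g
  | none, some a => sq (x a) z₀ + g
  | none, none => 0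

lemma sq_zero_single {B : Type} [Fintype B] [DecidableEq B] (b : B) (r : ℝ) :
    sq 0 (Pi.single b r) = r ^ 2 := by
  unfold sq
  rw [Finset.sum_eq_single b]
  · simp
  · intro i _ hi
    simp [hi]
  · simp

lemma sq_single_single {B : Type} [Fintype B] [DecidableEq B] (b b' : B) (r : ℝ) :
    sq (Pi.single b r) (Pi.single b' r) = if b = b' then 0 else 2 * r ^ 2 := by
  split_ifs with h
  · subst h
    exact sq_self _
  · have h1 : ∀ x, ((Pi.single b r : B → ℝ) x - (Pi.single b' r : B → ℝ) x) ^ 2
        = (if x = b then r ^ 2 else 0) + (if x = b' then r ^ 2 else 0) := by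
      intro x
      by_cases hi : x = b
      · subst hi
        simp [h]
      · by_cases hj : x = b'
        · subst hj
          simp [hi]
        · simp [hi, hj]
    unfold sq
    rw [Finset.sum_congr rfl fun x _ => h1 x, Finset.sum_add_distrib]
    simp
    ring

theorem main {A δ κ : Type} [Finite A] [Fintype δ] [Finite κ] (x : A → δ → ℝ) (z₀ : δ → ℝ) (g : ℝ)
    (hg : 0 < g)
    (HX : ∀ (κ : Type) [Finite κ], ∃ (ι : Type) (_ : Fintype ι), ∀ c : (ι → ℝ) → κ,
      ∃ f : A → ι → ℝ, (∀ a b, sq (f a) (f b) = sq (x a) (x b)) ∧ ∀ a b, c (f a) = c (f b))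
    (m : ℕ) : ∃ (ι : Type) (_ : Fintype ι), ∀ c : (ι → ℝ) → κ, (Set.range c).ncard ≤ m →
      ∃ f : Option A → ι → ℝ, (∀ a b, sq (f a) (f b) = DT x z₀ g a b) ∧
        ∀ a b, c (f a) = c (f b) := by
  classical
  induction m with
  | zero =>
    refine ⟨Empty, inferInstance, fun c hc => ?_⟩
    exfalso
    have h1 : (Set.range c).ncard = 0 := by omega
    rw [Set.ncard_eq_zero (Set.toFinite _)] at h1
    exact (Set.range_nonempty c).ne_empty h1
  | succ m ih =>
    obtain ⟨ι₀, i₀, H₀⟩ := ih
    obtain ⟨W₀, hW₀⟩ := compactness (DT x z₀ g) m H₀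
    obtain ⟨ι₁, i₁, W₁, H₁⟩ := simplex_good (fun b : ↥W₀ => (b : ι₀ → ℝ)) g hg κ
    obtain ⟨ι₂, i₂, H₂⟩ := HX (↥W₁ → κ)
    refine ⟨(ι₂ ⊕ ι₁) ⊕ (δ ⊕ (ι₀ ⊕ ↥W₀)), inferInstance, fun c hc => ?_⟩
    rcases isEmpty_or_nonempty A with hA | ⟨⟨a₀⟩⟩
    · refine ⟨fun _ => 0, fun a b => ?_, fun a b => rfl⟩
      match a, b with
      | some a, _ => exact (hA.false a).elim
      | none, some b => exact (hA.false b).elim
      | none, none => exact sq_self _
    · have hκ : Nonempty κ := ⟨c 0⟩
      obtain ⟨gA, dA, cA⟩ := H₂ (fun y w => c (Sum.elim (Sum.elim y w) 0))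
      obtain ⟨f, mf, df, cf⟩ := H₁ (fun w => c (Sum.elim (Sum.elim (gA a₀) w) 0))
      -- `W₀` is nonempty
      have hB : Nonempty ↥W₀ := by
        by_contra hne
        rw [not_nonempty_iff] at hne
        obtain ⟨f₀, -, -⟩ := hW₀ (fun b => (hne.false b).elim) (by
          rw [Set.range_eq_empty, Set.ncard_empty]
          exact Nat.zero_le _)
        exact hne.false (f₀ none)
      obtain ⟨b₀⟩ := hB
      have hP : Nonempty (A × ↥W₀) := ⟨(a₀, b₀)⟩
      have df' : ∀ b b' : ↥W₀, sq (f b) (f b') =
          if b = b' then 0 else sq (b : ι₀ → ℝ) b' + 2 * g := fun b b' => df b b'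
      have key : ∀ a b, c (Sum.elim (Sum.elim (gA a) (f b)) 0)
          = c (Sum.elim (Sum.elim (gA a₀) (f b₀)) 0) := by
        intro a b
        have e1 := congrFun (cA a a₀) ⟨f b, mf b⟩
        simp only at e1
        rw [e1]
        exact cf b b₀
      set s := c (Sum.elim (Sum.elim (gA a₀) (f b₀)) 0) with hs
      obtain ⟨q, q1, q2⟩ := extend (P := A × ↥W₀)
        (fun p => Sum.elim (x p.1) (Sum.elim (p.2 : ι₀ → ℝ) (Pi.single p.2 (√g))))
        (fun p => Sum.elim (gA p.1) (f p.2))
        (fun p p' => by
          rw [sq_sumElim, sq_sumElim, sq_sumElim, sq_single_single, dA, df', Real.sq_sqrt hg.le]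
          split_ifs with h
          · rw [h, sq_self]
            ring
          · rfl)
        (fun b : ↥W₀ => Sum.elim z₀ (Sum.elim (b : ι₀ → ℝ) 0))
      have q1' : ∀ a b, sq (Sum.elim (Sum.elim (gA a) (f b)) 0) (q b) = sq (x a) z₀ + g := by
        intro a b
        rw [sq_comm]
        have := q1 b (a, b)
        simp only at this
        rw [this, sq_sumElim, sq_sumElim, sq_self, sq_zero_single, Real.sq_sqrt hg.le,
          sq_comm z₀]
        ring
      have q2' : ∀ b b' : ↥W₀, sq (q b) (q b') = sq (b : ι₀ → ℝ) b' := by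
        intro b b'
        rw [q2, sq_sumElim, sq_sumElim, sq_self, sq_self]
        ring
      by_cases hq : ∃ b, c (q b) = s
      · obtain ⟨b, hb⟩ := hq
        refine ⟨fun o => match o with
          | none => q b
          | some a => Sum.elim (Sum.elim (gA a) (f b)) 0, fun a a' => ?_, fun a a' => ?_⟩
        · match a, a' with
          | some a, some a' =>
            simp only [DT]
            rw [sq_sumElim, sq_sumElim, sq_self, sq_self, dA]
            ring
          | some a, none => exact q1' a b
          | none, some a' =>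
            simp only [DT]
            rw [sq_comm]
            exact q1' a' b
          | none, none => exact sq_self _
        · have hall : ∀ o : Option A, c (match o with
              | none => q b
              | some a => Sum.elim (Sum.elim (gA a) (f b)) 0) = s := by
            intro o
            match o with
            | none => exact hb
            | some a => exact key a b
          exact (hall a).trans (hall a').symm
      · push Not at hq
        have hsub : Set.range (fun b => c (q b)) ⊆ Set.range c \ {s} := by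
          rintro _ ⟨b, rfl⟩
          exact ⟨Set.mem_range_self _, hq b⟩
        have hcard : (Set.range (fun b => c (q b))).ncard ≤ m := by
          refine (Set.ncard_le_ncard hsub (Set.toFinite _)).trans ?_
          have h1 := Set.ncard_sdiff_singleton_add_one (s := Set.range c) (a := s)
            (Set.mem_range_self _) (Set.toFinite _)
          omega
        obtain ⟨f₀, fd, fc⟩ := hW₀ (fun b => c (q b)) hcard
        exact ⟨fun a => q (f₀ a), fun a b => (q2' _ _).trans (fd a b), fc⟩

end Pool.Agent.N479.ER
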